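import Pool.Agent.helper47.SPI.Spec

set_option autoImplicit false

namespace Pool.Agent.SPI

open Finset Pool.Agent.helper85.PG

theorem GSI_norm (p : ℕ) [Fact p.Prime] (χ : MulChar (ZMod p) ℂ) (hχ : χ ≠ 1) :
    ‖gaussSum χ (ZMod.stdAddChar (N := p))‖ ^ 2 = (p : ℝ) := by
  have hprim : (ZMod.stdAddChar (N := p)).IsPrimitive := ZMod.isPrimitive_stdAddChar p
  have e1 := gaussSum_mul_gaussSum_eq_card hχ hprim
  rw [← star_gaussSum_eq, ZMod.card] at e1
  have e2 : ((‖gaussSum χ (ZMod.stdAddChar (N := p))‖ ^ 2 : ℝ) : ℂ) = (p : ℂ) := by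
    rw [← e1]
    push_cast
    exact (Complex.mul_conj' _).symm
  exact_mod_cast e2

theorem GSI : GSI_stmt := by
  intro p _ χ hχ
  have hχ' : χ⁻¹ ≠ 1 := inv_ne_one.2 hχ
  refine ⟨gaussSum χ⁻¹ (ZMod.stdAddChar (N := p)), ?_, fun n => ?_⟩
  · rw [← GSI_norm p χ⁻¹ hχ', Real.sqrt_sq (norm_nonneg _)]
  · by_cases hn : n = 0
    · subst hn
      simp only [mul_zero, AddChar.map_zero_eq_one, mul_one]
      rw [MulChar.map_zero, mul_zero, MulChar.sum_eq_zero_of_ne_one hχ']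
    · have h1 := gaussSum_mulShift_eq χ⁻¹ (ZMod.stdAddChar (N := p)) (Units.mk0 n hn)
      rw [inv_inv, Units.val_mk0] at h1
      rw [mul_comm, ← h1]
      unfold gaussSum
      refine Finset.sum_congr rfl fun t _ => ?_
      rw [AddChar.mulShift_apply, mul_comm n t]

end Pool.Agent.SPI
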